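import Pool.Agent.H257R2.PenroseGen

set_option autoImplicit false

namespace Pool.Agent.H257R2.Penrose

/-! ### the graph with 14 vertices -/

def rotF : Fin 42 → Fin 42 :=
  ![1, 2, 0, 4, 5, 3, 7, 8, 6, 10, 11, 9, 13, 14, 12, 16, 17, 15, 19, 20, 18, 22, 23, 21, 25, 26,
  24, 28, 29, 27, 31, 32, 30, 34, 35, 33, 37, 38, 36, 40, 41, 39]

def rotI : Fin 42 → Fin 42 :=
  ![2, 0, 1, 5, 3, 4, 8, 6, 7, 11, 9, 10, 14, 12, 13, 17, 15, 16, 20, 18, 19, 23, 21, 22, 26, 24,
  25, 29, 27, 28, 32, 30, 31, 35, 33, 34, 38, 36, 37, 41, 39, 40]

def oppF : Fin 42 → Fin 42 :=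
  ![3, 6, 9, 0, 12, 15, 1, 17, 18, 2, 20, 21, 4, 23, 24, 5, 27, 7, 8, 30, 10, 11, 33, 13, 14, 35,
  36, 16, 38, 31, 19, 29, 39, 22, 41, 25, 26, 40, 28, 32, 37, 34]

def rot : Equiv.Perm (Fin 42) := ⟨rotF, rotI, by decide +kernel, by decide +kernel⟩

def opp : Equiv.Perm (Fin 42) := ⟨oppF, oppF, by decide +kernel, by decide +kernel⟩

/-- edge index -/
def eidx : Fin 42 → Fin 21 :=
  ![2, 3, 5, 2, 8, 0, 3, 1, 4, 5, 6, 7, 8, 9, 18, 0, 11, 1, 4, 10, 6, 7, 16, 9, 18, 20, 19, 11,
  13, 12, 10, 12, 14, 16, 17, 20, 19, 15, 13, 14, 15, 17]

/-- face index -/
def fidx : Fin 42 → Fin 9 :=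
  ![0, 1, 2, 1, 0, 3, 2, 1, 4, 0, 2, 5, 3, 0, 6, 1, 3, 4, 2, 4, 5, 0, 5, 6, 3, 6, 7, 4, 3, 8, 5,
  4, 8, 6, 5, 7, 3, 7, 8, 5, 8, 7]

/-- one dart of every edge -/
def rep : Fin 21 → Fin 42 :=
  ![5, 7, 0, 1, 8, 2, 10, 11, 4, 13, 19, 16, 29, 28, 32, 37, 22, 34, 14, 26, 25]

def vidx : Fin 42 → Fin 14 := fun d => ⟨d.1 / 3, by omega⟩

def words : List (List Bool) :=
  [[], [false], [false, false], [true], [false, true], [false, false, true], [true, false],
  [false, true, false], [false, false, true, false], [true, false, false], [false, true, false,
  false], [false, false, true, false, false], [true, false, true], [false, true, false, true],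
  [false, false, true, false, true], [true, false, false, true], [false, true, false, false,
  true], [true, false, true, false], [true, false, false, true, false], [false, true, false,
  false, true, false], [true, false, true, false, false], [true, false, false, true, false,
  false], [false, true, false, false, true, false, false], [true, false, true, false, true],
  [true, false, false, true, false, true], [false, true, false, false, true, false, true],
  [false, false, true, false, false, true, false, true], [true, false, true, false, false,
  true], [false, true, false, true, false, false, true], [false, false, true, false, true,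
  false, false, true], [true, false, true, false, false, true, false], [false, true, false,
  true, false, false, true, false], [false, false, true, false, true, false, false, true,
  false], [true, false, true, false, false, true, false, false], [false, true, false, true,
  false, false, true, false, false], [true, false, true, false, false, true, false, true],
  [false, true, false, true, false, true, false, false, true], [false, false, true, false, true,
  false, true, false, false, true], [true, false, true, false, true, false, false, true], [true,
  false, false, true, false, true, false, false, true, false], [false, true, false, false, true,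
  false, true, false, false, true, false], [true, false, true, false, true, false, false, true,
  false, false]]

def Kl : List (List ℕ) :=
  [[], [0], [0], [1, 2], [1, 3], [2, 3], [4, 5], [5, 6], [0, 2], [7, 8], [4, 6], [0, 1], [10, 11],
  [11, 12], [10, 12], [13, 14], [7, 9], [14, 15, 16], [8, 9], [13, 15, 18], [16, 17, 18, 19]]

def gatesN : List (ℕ × ℕ × ℕ × ℕ) :=
  [(9, 30, 35, 10), (13, 34, 33, 14), (5, 6, 11, 0), (1, 12, 17, 2), (15, 36, 41, 16), (3, 18, 23,
  4), (19, 40, 39, 20), (21, 42, 47, 22), (7, 24, 29, 8), (25, 46, 45, 26), (37, 60, 65, 38),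
  (31, 54, 59, 32), (57, 62, 61, 58), (55, 76, 75, 56), (63, 78, 83, 64), (73, 80, 79, 74), (43,
  66, 71, 44), (67, 82, 81, 68), (27, 48, 53, 28), (51, 72, 77, 52), (49, 70, 69, 50)]

def initN : ℕ :=
  654166032680273216449855975864516274529036422809015972211215672591512736673889169377996918037151127533080831660617848164298968841792421028165841252555623904169891128567234871297

set_option maxRecDepth 100000 in
theorem run_val : run gatesN [(initN, 1)] = -78966 := by decide +kernel

end Pool.Agent.H257R2.Penrose
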