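import Mathlib

set_option autoImplicit false

/-!
Combinatorial description of connected plane cubic graphs, their edge 3-colourings, and the
Penrose polynomial defined through the states of the medial graph.
-/

namespace Pool.Agent.H257R2.Penrose

variable {D : Type} [Fintype D] [DecidableEq D]

/-- The number of orbits (cycles, fixed points included) of a permutation. -/
noncomputable def numOrbits (f : Equiv.Perm D) : ℕ :=
  Nat.card (Quotient (Equiv.Perm.SameCycle.setoid f))

/-- `D` is the set of darts (half-edges) of a map on an oriented closed surface: `rot d` is the next
dart around the vertex of `d`, and `opp d` is the other half of the edge of `d`. The vertices are the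
orbits of `rot`, the edges are the orbits of `opp`, and the faces are the orbits of `rot * opp`. The
map is a connected plane (spherical) graph in which every vertex has degree 3 when: `opp` is an
involution without fixed points, every orbit of `rot` has exactly three elements, the group generated
by `rot` and `opp` is transitive, and Euler's formula `V - E + F = 2` holds. -/
def IsPlaneCubic (rot opp : Equiv.Perm D) : Prop :=
  (∀ d, opp d ≠ d ∧ opp (opp d) = d) ∧
  (∀ d, rot d ≠ d ∧ rot (rot d) ≠ d ∧ rot (rot (rot d)) = d) ∧
  Nonempty D ∧
  (∀ d d' : D, ∃ g ∈ Subgroup.closure {rot, opp}, g d = d') ∧
  (numOrbits rot : ℤ) - numOrbits opp + numOrbits (rot * opp) = 2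

/-- An edge 3-colouring: a colour for every edge (a function on darts that takes the same value on
the two darts of an edge) such that two different edges with a common endpoint get different
colours. -/
def IsColouring (rot opp : Equiv.Perm D) (c : D → Fin 3) : Prop :=
  (∀ d, c (opp d) = c d) ∧
  ∀ d d', rot.SameCycle d d' → d' ≠ d → d' ≠ opp d → c d ≠ c d'

/-- `F_G(4)`: the number of edge 3-colourings. -/
noncomputable def numColourings (rot opp : Equiv.Perm D) : ℕ :=
  Nat.card {c : D → Fin 3 // IsColouring rot opp c}

/-- The medial graph has one vertex for every edge of `G` and one edge for every corner of `G`, i.e.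
for every dart `d` (the corner between `d` and `rot d`). The half-edge `(d, false)` is the half of
that medial edge at the edge of `d`, and `(d, true)` is its half at the edge of `rot d`. At the
medial vertex on the edge `{d, opp d}` the four half-edges are, in cyclic order,
`(d, false)`, `(rot⁻¹ (opp d), true)`, `(opp d, false)`, `(rot⁻¹ d, true)`; the corners between the
first two and between the last two are white, the other two corners are black (they contain the
endpoints of the edge). A Penrose state `s` chooses crossing (`true`) or white (`false`) at every
medial vertex, i.e. at every edge of `G`. `CurveStep` relates consecutive half-edges on the closed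
curves of the state `s`: the two halves of a medial edge, and two half-edges paired at a medial
vertex. -/
inductive CurveStep (rot opp : Equiv.Perm D) (s : D → Bool) : D × Bool → D × Bool → Prop
  | along (d : D) : CurveStep rot opp s (d, false) (d, true)
  | white (d : D) (h : s d = false) : CurveStep rot opp s (rot.symm d, true) (opp d, false)
  | cross₁ (d : D) (h : s d = true) : CurveStep rot opp s (d, false) (opp d, false)
  | cross₂ (d : D) (h : s d = true) :
      CurveStep rot opp s (rot.symm d, true) (rot.symm (opp d), true)

/-- `c(s)`: the number of closed curves of the state `s`. -/
noncomputable def numCurves (rot opp : Equiv.Perm D) (s : D → Bool) : ℕ :=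
  Nat.card (Quot (CurveStep rot opp s))

/-- The Penrose polynomial `P_G(X) = ∑ (-1)^cr(s) X^c(s)`; the states `s` are the functions on darts
with `s (opp d) = s d`, and `cr(s)`, the number of edges where `s` chooses crossing, is half of the
number of darts `d` with `s d = true`. -/
noncomputable def penrose (rot opp : Equiv.Perm D) : Polynomial ℤ :=
  ∑ s ∈ Finset.univ.filter (fun s : D → Bool => ∀ d, s (opp d) = s d),
    (-1) ^ ((Finset.univ.filter (fun d => s d = true)).card / 2) *
      Polynomial.X ^ (numCurves rot opp s)

end Pool.Agent.H257R2.Penrose
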