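import Pool.Agent.H257R2.PenroseMain

set_option autoImplicit false

namespace Pool.Agent.H257R2.Penrose

open Finset

theorem h4' : sumB 21 (fun t : List Bool => (-1 : ℤ) ^ t.count true *
      (-1) ^ Nat.card (Quotient (glueL r0 gates t))) = (-1) ^ 42 * val gatesN initN := by
  have h4 := sumB_eq_val enc_inj enc_lt gates r0 initN init_inv gates_nodup
  have h5 : gates.length = 21 := by
    unfold gates
    rw [List.length_ofFn]
  rw [h5, card_r0, gates_code] at h4
  exact h4

theorem valS_single (L : List (ℕ × ℕ × ℕ × ℕ)) (l : ℕ) : valS L [(l, 1)] = val L l := by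
  simp [valS]

theorem val_eq : val gatesN initN = -78966 :=
  (valS_single gatesN initN).symm.trans ((run_eq gatesN [(initN, 1)]).symm.trans run_val)

theorem penrose_eval : (penrose rot opp).eval (-1) = -78966 := by
  rw [penrose_gen rot opp eidx rep rep_eidx eidx_rep eidx_opp]
  have h2 : ∀ b : Fin 21 → Bool,
      (-1 : ℤ) ^ ((univ.filter (fun d => b (eidx d) = true)).card / 2) *
        (-1) ^ (numCurves rot opp (fun d => b (eidx d))) =
      (fun t : List Bool => (-1 : ℤ) ^ t.count true *
        (-1) ^ Nat.card (Quotient (glueL r0 gates t))) (List.ofFn b) := by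
    intro b
    have h3 : (fun d => b (eidx d)) = sOf (List.ofFn b) := by
      funext d
      unfold sOf
      rw [List.getD_eq_getElem _ _ (by rw [List.length_ofFn]; exact (eidx d).2),
        List.getElem_ofFn]
    rw [cr_eq, h3, numCurves_eq _ (List.length_ofFn)]
  rw [Finset.sum_congr rfl (fun b _ => h2 b)]
  have h8 := sumB_eq_sum 21 (fun t : List Bool => (-1 : ℤ) ^ t.count true *
    (-1) ^ Nat.card (Quotient (glueL r0 gates t)))
  rw [← h8, h4', val_eq]
  rfl

end Pool.Agent.H257R2.Penrose
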