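import Pool.Agent.H257R2.PenroseGlue

set_option autoImplicit false

namespace Pool.Agent.H257R2.Penrose

variable {P : Type}

/-- the four points of a gate -/
def gatePts (g : P × P × P × P) : List P := [g.1, g.2.1, g.2.2.1, g.2.2.2]

/-- resolve the gates of the list `L` according to the bits -/
def glueL (r : Setoid P) : List (P × P × P × P) → List Bool → Setoid P
  | [], _ => r
  | _ :: _, [] => r
  | g :: L, true :: t => glueL (addPair (addPair r g.1 g.2.2.1) g.2.1 g.2.2.2) L t
  | g :: L, false :: t => glueL (addPair (addPair r g.1 g.2.1) g.2.2.1 g.2.2.2) L t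

/-- sum of a function over all bit lists of length `n` -/
def sumB : ℕ → (List Bool → ℤ) → ℤ
  | 0, F => F []
  | n + 1, F => sumB n (fun t => F (false :: t)) + sumB n (fun t => F (true :: t))

theorem sumB_congr (n : ℕ) (F G : List Bool → ℤ) (h : ∀ t, t.length = n → F t = G t) :
    sumB n F = sumB n G := by
  induction n generalizing F G with
  | zero => exact h [] rfl
  | succ n ih =>
    unfold sumB
    rw [ih _ (fun t => G (false :: t)) (fun t ht => h _ (by simp [ht])),
      ih _ (fun t => G (true :: t)) (fun t ht => h _ (by simp [ht]))]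

theorem sumB_mul (n : ℕ) (c : ℤ) (F : List Bool → ℤ) :
    sumB n (fun t => c * F t) = c * sumB n F := by
  induction n generalizing F with
  | zero => rfl
  | succ n ih =>
    unfold sumB
    rw [ih, ih, mul_add]

/-- white resolution of a coded gate -/
def gw (g : ℕ × ℕ × ℕ × ℕ) (l : ℕ) : ℤ × ℕ :=
  ((glueOne g.1 g.2.1 l).1 * (glueOne g.2.2.1 g.2.2.2 (glueOne g.1 g.2.1 l).2).1,
    (glueOne g.2.2.1 g.2.2.2 (glueOne g.1 g.2.1 l).2).2)

/-- crossing resolution of a coded gate -/
def gc (g : ℕ × ℕ × ℕ × ℕ) (l : ℕ) : ℤ × ℕ :=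
  (-((glueOne g.1 g.2.2.1 l).1 * (glueOne g.2.1 g.2.2.2 (glueOne g.1 g.2.2.1 l).2).1),
    (glueOne g.2.1 g.2.2.2 (glueOne g.1 g.2.2.1 l).2).2)

/-- the recursive state sum -/
def val : List (ℕ × ℕ × ℕ × ℕ) → ℕ → ℤ
  | [], _ => 1
  | g :: L, l => (gw g l).1 * val L (gw g l).2 + (gc g l).1 * val L (gc g l).2

def code (enc : P → ℕ) (g : P × P × P × P) : ℕ × ℕ × ℕ × ℕ :=
  (enc g.1, enc g.2.1, enc g.2.2.1, enc g.2.2.2)

theorem sumB_eq_val [Finite P] {enc : P → ℕ} (henc : Function.Injective enc)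
    (hlen : ∀ x, enc x < 128) (L : List (P × P × P × P)) (r : Setoid P) (l : ℕ)
    (hinv : Inv enc r l {x | x ∈ L.flatMap gatePts}) (hnd : (L.flatMap gatePts).Nodup) :
    sumB L.length (fun t => (-1) ^ t.count true * (-1) ^ Nat.card (Quotient (glueL r L t))) =
      (-1) ^ Nat.card (Quotient r) * val (L.map (code enc)) l := by
  induction L generalizing r l with
  | nil => simp [sumB, glueL, val]
  | cons g L ih =>
    obtain ⟨p1, p2, p3, p4⟩ := g
    have hpts : ((p1, p2, p3, p4) :: L).flatMap gatePts = [p1, p2, p3, p4] ++ L.flatMap gatePts :=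
      rfl
    rw [hpts] at hnd hinv
    rw [List.nodup_append] at hnd
    obtain ⟨hnd1, hnd2, hnd3⟩ := hnd
    simp only [List.nodup_cons, List.mem_cons, List.not_mem_nil, or_false, not_or,
      not_false_eq_true, List.nodup_nil, and_true] at hnd1
    obtain ⟨⟨h12, h13, h14⟩, ⟨h23, h24⟩, h34⟩ := hnd1
    have hin : ∀ x, x ∈ [p1, p2, p3, p4] ++ L.flatMap gatePts ↔
        (x = p1 ∨ x = p2 ∨ x = p3 ∨ x = p4) ∨ x ∈ L.flatMap gatePts := by
      intro x
      rw [List.mem_append]
      simp
    have hno : ∀ x ∈ L.flatMap gatePts, x ≠ p1 ∧ x ≠ p2 ∧ x ≠ p3 ∧ x ≠ p4 := by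
      intro x hx
      refine ⟨?_, ?_, ?_, ?_⟩ <;> rintro rfl <;> exact hnd3 x (by simp) x hx rfl
    have hrest : ∀ a b c d : P, (∀ x, (x = a ∨ x = b) ∨ (x = c ∨ x = d) ↔
        (x = p1 ∨ x = p2 ∨ x = p3 ∨ x = p4)) →
        ({x | x ∈ [p1, p2, p3, p4] ++ L.flatMap gatePts} \ {a, b}) \ {c, d} =
          {x | x ∈ L.flatMap gatePts} := by
      intro a b c d habcd
      ext x
      have h1 := hin x
      have h2 := habcd x
      have h3 := hno x
      simp only [Set.mem_sdiff, Set.mem_ofPred_eq, Set.mem_insert_iff, Set.mem_singleton_iff]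
      constructor
      · rintro ⟨⟨h4, h5⟩, h6⟩
        rcases h1.1 h4 with h7 | h7
        · exfalso
          rcases h2.2 h7 with h8 | h8
          · exact h5 h8
          · exact h6 h8
        · exact h7
      · intro h4
        have n : ¬ (x = p1 ∨ x = p2 ∨ x = p3 ∨ x = p4) := by
          obtain ⟨n1, n2, n3, n4⟩ := h3 h4
          rintro (h | h | h | h)
          · exact n1 h
          · exact n2 h
          · exact n3 h
          · exact n4 h
        exact ⟨⟨h1.2 (Or.inr h4), fun h8 => n (h2.1 (Or.inl h8))⟩,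
          fun h8 => n (h2.1 (Or.inr h8))⟩
    have step : ∀ a b c d : P, a ≠ b → c ≠ d → a ≠ c → a ≠ d → b ≠ c → b ≠ d →
        (∀ x, (x = a ∨ x = b) ∨ (x = c ∨ x = d) ↔ (x = p1 ∨ x = p2 ∨ x = p3 ∨ x = p4)) →
        sumB L.length (fun t => (-1) ^ t.count true *
          (-1) ^ Nat.card (Quotient (glueL (addPair (addPair r a b) c d) L t))) =
        (-1) ^ Nat.card (Quotient r) * (((glueOne (enc a) (enc b) l).1 *
          (glueOne (enc c) (enc d) (glueOne (enc a) (enc b) l).2).1) *
            val (L.map (code enc)) (glueOne (enc c) (enc d) (glueOne (enc a) (enc b) l).2).2) := by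
      intro a b c d hab hcd hac had hbc hbd habcd
      have ha : a ∈ {x | x ∈ [p1, p2, p3, p4] ++ L.flatMap gatePts} :=
        (hin a).2 (Or.inl ((habcd a).1 (by simp)))
      have hb : b ∈ {x | x ∈ [p1, p2, p3, p4] ++ L.flatMap gatePts} :=
        (hin b).2 (Or.inl ((habcd b).1 (by simp)))
      have hc : c ∈ {x | x ∈ [p1, p2, p3, p4] ++ L.flatMap gatePts} :=
        (hin c).2 (Or.inl ((habcd c).1 (by simp)))
      have hd : d ∈ {x | x ∈ [p1, p2, p3, p4] ++ L.flatMap gatePts} :=
        (hin d).2 (Or.inl ((habcd d).1 (by simp)))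
      obtain ⟨i1, i2⟩ := glue_inv henc hlen hinv ha hb hab
      obtain ⟨j1, j2⟩ := glue_inv henc hlen i1 (p := c) (q := d)
        ⟨hc, by simp [Ne.symm hac, Ne.symm hbc]⟩ ⟨hd, by simp [Ne.symm had, Ne.symm hbd]⟩ hcd
      rw [hrest a b c d habcd] at j1
      rw [ih _ _ j1 hnd2, j2, i2]
      ring
    rw [List.length_cons, sumB]
    have e1 : sumB L.length (fun t => (-1) ^ (false :: t).count true *
        (-1) ^ Nat.card (Quotient (glueL r ((p1, p2, p3, p4) :: L) (false :: t)))) =
        sumB L.length (fun t => (-1) ^ t.count true *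
          (-1) ^ Nat.card (Quotient (glueL (addPair (addPair r p1 p2) p3 p4) L t))) := by
      apply sumB_congr
      intro t _
      rw [List.count_cons_of_ne (by decide)]
      rfl
    have e2 : sumB L.length (fun t => (-1) ^ (true :: t).count true *
        (-1) ^ Nat.card (Quotient (glueL r ((p1, p2, p3, p4) :: L) (true :: t)))) =
        (-1) * sumB L.length (fun t => (-1) ^ t.count true *
          (-1) ^ Nat.card (Quotient (glueL (addPair (addPair r p1 p3) p2 p4) L t))) := by
      rw [← sumB_mul]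
      apply sumB_congr
      intro t _
      rw [List.count_cons_self, pow_succ]
      have : glueL r ((p1, p2, p3, p4) :: L) (true :: t) =
        glueL (addPair (addPair r p1 p3) p2 p4) L t := rfl
      rw [this]
      ring
    have c1 : ∀ x, (x = p1 ∨ x = p2) ∨ (x = p3 ∨ x = p4) ↔
        (x = p1 ∨ x = p2 ∨ x = p3 ∨ x = p4) := fun x => or_assoc
    have c2 : ∀ x, (x = p1 ∨ x = p3) ∨ (x = p2 ∨ x = p4) ↔
        (x = p1 ∨ x = p2 ∨ x = p3 ∨ x = p4) := fun x => by
      rw [or_assoc]
      exact or_congr_right or_left_comm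
    rw [e1, e2, step p1 p2 p3 p4 h12 h34 h13 h14 h23 h24 c1,
      step p1 p3 p2 p4 h13 h24 h12 h14 (Ne.symm h23) h34 c2, List.map_cons, val]
    unfold gw gc code
    ring

/-! ### merging equal states -/

/-- the value of a formal combination of states -/
def valS (L : List (ℕ × ℕ × ℕ × ℕ)) (S : List (ℕ × ℤ)) : ℤ :=
  (S.map (fun x => x.2 * val L x.1)).sum

def addTo (k : ℕ) (c : ℤ) : List (ℕ × ℤ) → List (ℕ × ℤ)
  | [] => [(k, c)]
  | y :: S => if Nat.beq y.1 k then (y.1, y.2 + c) :: S else y :: addTo k c S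

theorem valS_addTo (L : List (ℕ × ℕ × ℕ × ℕ)) (k : ℕ) (c : ℤ) (S : List (ℕ × ℤ)) :
    valS L (addTo k c S) = c * val L k + valS L S := by
  induction S with
  | nil => simp [addTo, valS]
  | cons y S ih =>
    unfold addTo
    by_cases h : Nat.beq y.1 k
    · rw [if_pos h]
      have := Nat.eq_of_beq_eq_true h
      subst this
      simp only [valS, List.map_cons, List.sum_cons]
      ring
    · rw [if_neg h]
      unfold valS at ih ⊢
      rw [List.map_cons, List.sum_cons, ih, List.map_cons, List.sum_cons]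
      ring

def addBoth (g : ℕ × ℕ × ℕ × ℕ) (x : ℕ × ℤ) (acc : List (ℕ × ℤ)) :
    List (ℕ × ℤ) :=
  addTo (gc g x.1).2 ((gc g x.1).1 * x.2) (addTo (gw g x.1).2 ((gw g x.1).1 * x.2) acc)

def step (g : ℕ × ℕ × ℕ × ℕ) (S : List (ℕ × ℤ)) : List (ℕ × ℤ) :=
  S.foldr (addBoth g) []

theorem valS_step (g : ℕ × ℕ × ℕ × ℕ) (L : List (ℕ × ℕ × ℕ × ℕ)) (S : List (ℕ × ℤ)) :
    valS L (step g S) = valS (g :: L) S := by
  induction S with
  | nil => rfl
  | cons x S ih =>
    unfold step at ih ⊢
    rw [List.foldr_cons, addBoth, valS_addTo, valS_addTo, ih]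
    unfold valS
    rw [List.map_cons, List.sum_cons, val]
    ring

def run : List (ℕ × ℕ × ℕ × ℕ) → List (ℕ × ℤ) → ℤ
  | [], S => (S.map (fun x => x.2)).sum
  | g :: L, S => run L (step g S)

theorem run_eq (L : List (ℕ × ℕ × ℕ × ℕ)) (S : List (ℕ × ℤ)) : run L S = valS L S := by
  induction L generalizing S with
  | nil =>
    unfold run valS
    congr 1
    apply List.map_congr_left
    intro x _
    simp [val]
  | cons g L ih => rw [run, ih, valS_step]

end Pool.Agent.H257R2.Penrose
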