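import Pool.Agent.H257R2.PenroseDefs
import Pool.Agent.H257R2.PenroseVal

set_option autoImplicit false

namespace Pool.Agent.H257R2.Penrose

/-! ### generic lemmas -/

theorem sumB_eq_sum (n : ℕ) (G : List Bool → ℤ) :
    sumB n G = ∑ b : Fin n → Bool, G (List.ofFn b) := by
  induction n generalizing G with
  | zero => simp [sumB]
  | succ n ih =>
    rw [sumB, ih, ih, ← (Fin.consEquiv (fun _ : Fin (n + 1) => Bool)).sum_comp,
      Fintype.sum_prod_type, Fintype.sum_bool, add_comm]
    simp only [Fin.consEquiv, Equiv.coe_fn_mk]
    congr 1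
    · apply Finset.sum_congr rfl
      intro b _
      rw [List.ofFn_succ]
      simp
    · apply Finset.sum_congr rfl
      intro b _
      rw [List.ofFn_succ]
      simp

theorem count_ofFn (n : ℕ) (b : Fin n → Bool) :
    (List.ofFn b).count true = ∑ i, (if b i = true then 1 else 0) := by
  induction n with
  | zero => simp
  | succ n ih =>
    rw [List.ofFn_succ, List.count_cons, ih, Fin.sum_univ_succ, add_comm]
    simp

section

variable {P : Type}

theorem card_quot_eq (r : P → P → Prop) (S : Setoid P) (h1 : ∀ x y, r x y → S x y)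
    (h2 : ∀ x y, S x y → Relation.EqvGen r x y) : Nat.card (Quot r) = Nat.card (Quotient S) := by
  refine Nat.card_congr
    { toFun := Quot.lift (fun x => Quotient.mk S x) (fun a b h => Quotient.sound (h1 a b h))
      invFun := Quotient.lift (fun x => Quot.mk r x) (fun a b h => Quot.eqvGen_sound (h2 a b h))
      left_inv := ?_
      right_inv := ?_ }
  · intro x
    induction x using Quot.ind
    rfl
  · intro x
    induction x using Quotient.ind
    rfl

theorem addPair_le {r T : Setoid P} {p q : P} (hr : ∀ x y, r x y → T x y) (h : T p q) :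
    ∀ x y, addPair r p q x y → T x y := by
  rintro x y (h1 | ⟨h1, h2⟩ | ⟨h1, h2⟩)
  · exact hr _ _ h1
  · exact T.trans (hr _ _ h1) (T.trans h (hr _ _ h2))
  · exact T.trans (hr _ _ h1) (T.trans (T.symm h) (hr _ _ h2))

theorem le_addPair {r : Setoid P} {p q x y : P} (h : r x y) : addPair r p q x y := Or.inl h

theorem addPair_mem (r : Setoid P) (p q : P) : addPair r p q p q :=
  Or.inr (Or.inl ⟨r.refl p, r.refl q⟩)

theorem le_glueL (L : List (P × P × P × P)) (t : List Bool) (r : Setoid P) {x y : P}
    (h : r x y) : glueL r L t x y := by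
  induction L generalizing r t with
  | nil => exact h
  | cons g L ih =>
    rcases t with _ | ⟨_ | _, t⟩
    · exact h
    · exact ih _ _ (le_addPair (le_addPair h))
    · exact ih _ _ (le_addPair (le_addPair h))

theorem glueL_le {T : Setoid P} (L : List (P × P × P × P)) (t : List Bool) (r : Setoid P)
    (hr : ∀ x y, r x y → T x y)
    (h : ∀ (i : ℕ) g, L[i]? = some g →
      (t[i]? = some true → T g.1 g.2.2.1 ∧ T g.2.1 g.2.2.2) ∧
      (t[i]? = some false → T g.1 g.2.1 ∧ T g.2.2.1 g.2.2.2)) :
    ∀ x y, glueL r L t x y → T x y := by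
  induction L generalizing r t with
  | nil => exact hr
  | cons g L ih =>
    have h0 := h 0 g rfl
    have hs : ∀ (i : ℕ) g', L[i]? = some g' → (g :: L)[i + 1]? = some g' := by
      intro i g' hg; simpa using hg
    rcases t with _ | ⟨_ | _, t⟩
    · exact hr
    · have h1 := h0.2 rfl
      refine ih _ _ (addPair_le (addPair_le hr h1.1) h1.2) ?_
      intro i g' hg
      have := h (i + 1) g' (hs i g' hg)
      simpa using this
    · have h1 := h0.1 rfl
      refine ih _ _ (addPair_le (addPair_le hr h1.1) h1.2) ?_
      intro i g' hg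
      have := h (i + 1) g' (hs i g' hg)
      simpa using this

theorem mem_glueL (L : List (P × P × P × P)) (t : List Bool) (r : Setoid P) (i : ℕ)
    (g : P × P × P × P) (hg : L[i]? = some g) :
    (t[i]? = some true → glueL r L t g.1 g.2.2.1 ∧ glueL r L t g.2.1 g.2.2.2) ∧
      (t[i]? = some false → glueL r L t g.1 g.2.1 ∧ glueL r L t g.2.2.1 g.2.2.2) := by
  induction L generalizing r t i with
  | nil => simp at hg
  | cons g' L ih =>
    rcases t with _ | ⟨b, t⟩
    · simp
    · rcases i with _ | i
      · simp only [List.getElem?_cons_zero, Option.some.injEq] at hg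
        subst hg
        constructor
        · intro hb
          simp only [List.getElem?_cons_zero, Option.some.injEq] at hb
          subst hb
          exact ⟨le_glueL L t (addPair (addPair r g'.1 g'.2.2.1) g'.2.1 g'.2.2.2)
              (le_addPair (addPair_mem _ _ _)),
            le_glueL L t (addPair (addPair r g'.1 g'.2.2.1) g'.2.1 g'.2.2.2)
              (addPair_mem _ _ _)⟩
        · intro hb
          simp only [List.getElem?_cons_zero, Option.some.injEq] at hb
          subst hb
          exact ⟨le_glueL L t (addPair (addPair r g'.1 g'.2.1) g'.2.2.1 g'.2.2.2)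
              (le_addPair (addPair_mem _ _ _)),
            le_glueL L t (addPair (addPair r g'.1 g'.2.1) g'.2.2.1 g'.2.2.2)
              (addPair_mem _ _ _)⟩
      · simp only [List.getElem?_cons_succ] at hg ⊢
        rcases b with _ | _
        · exact ih _ _ _ hg
        · exact ih _ _ _ hg

end

section

variable {D : Type} [Fintype D]

theorem sameCycle_label {β : Type} (f : Equiv.Perm D) (lab : D → β)
    (h : ∀ x, lab (f x) = lab x) {x y : D} (hxy : f.SameCycle x y) : lab x = lab y := by
  obtain ⟨n, -, rfl⟩ := hxy.exists_pow_eq'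
  induction n with
  | zero => rfl
  | succ n ih =>
    rw [pow_succ', Equiv.Perm.mul_apply, h]
    exact ih ⟨n, by simp⟩

theorem numOrbits_eq {k : ℕ} (f : Equiv.Perm D) (lab : D → Fin k)
    (h : ∀ x, lab (f x) = lab x) (hs : Function.Surjective lab)
    (hc : ∀ x y, lab x = lab y → ∃ n : Fin 6, (f^[n.1]) x = y) : numOrbits f = k := by
  unfold numOrbits
  have e : Quotient (Equiv.Perm.SameCycle.setoid f) ≃ Fin k := by
    refine Equiv.ofBijective (Quotient.lift lab (fun a b hab => sameCycle_label f lab h hab)) ?_
    constructor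
    · intro x y hxy
      induction x using Quotient.inductionOn with | _ a =>
      induction y using Quotient.inductionOn with | _ b =>
      apply Quotient.sound
      obtain ⟨n, hn⟩ := hc a b hxy
      refine ⟨(n.1 : ℤ), ?_⟩
      rw [zpow_natCast, ← Equiv.Perm.iterate_eq_pow]
      exact hn
    · intro i
      obtain ⟨a, ha⟩ := hs i
      exact ⟨Quotient.mk _ a, ha⟩
  rw [Nat.card_congr e, Nat.card_fin]

end

/-! ### enumeration by backtracking -/

/-- all elements of the list were allowed by `chk` when they were added -/
def AllGood (chk : Fin 3 → List (Fin 3) → Bool) : List (Fin 3) → Prop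
  | [] => True
  | a :: l => chk a l = true ∧ AllGood chk l

def sols (chk : Fin 3 → List (Fin 3) → Bool) : ℕ → List (List (Fin 3))
  | 0 => [[]]
  | k + 1 => (sols chk k).flatMap (fun l =>
      (([0, 1, 2] : List (Fin 3)).filter (fun a => chk a l)).map (fun a => a :: l))

theorem mem_sols (chk : Fin 3 → List (Fin 3) → Bool) (k : ℕ) (l : List (Fin 3)) :
    l ∈ sols chk k ↔ l.length = k ∧ AllGood chk l := by
  induction k generalizing l with
  | zero =>
    rw [sols, List.mem_singleton]
    constructor
    · rintro rfl
      exact ⟨rfl, trivial⟩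
    · rintro ⟨h, -⟩
      exact List.length_eq_zero_iff.1 h
  | succ k ih =>
    rw [sols, List.mem_flatMap]
    constructor
    · rintro ⟨l', hl', hl⟩
      rw [List.mem_map] at hl
      obtain ⟨a, ha, rfl⟩ := hl
      rw [List.mem_filter] at ha
      rw [ih] at hl'
      exact ⟨by rw [List.length_cons, hl'.1], ha.2, hl'.2⟩
    · rintro ⟨h1, h2⟩
      rcases l with _ | ⟨a, l⟩
      · simp at h1
      · refine ⟨l, (ih l).2 ⟨by simpa using h1, h2.2⟩, ?_⟩
        rw [List.mem_map]
        refine ⟨a, ?_, rfl⟩
        rw [List.mem_filter]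
        refine ⟨?_, h2.1⟩
        fin_cases a <;> simp

/-- the list `[f (k-1), ..., f 0]` -/
def lst (f : ℕ → Fin 3) : ℕ → List (Fin 3)
  | 0 => []
  | k + 1 => f k :: lst f k

theorem length_lst (f : ℕ → Fin 3) (k : ℕ) : (lst f k).length = k := by
  induction k with
  | zero => rfl
  | succ k ih => rw [lst, List.length_cons, ih]

theorem getD_lst (f : ℕ → Fin 3) (k i : ℕ) (h : i < k) : (lst f k).getD i 0 = f (k - 1 - i) := by
  induction k generalizing i with
  | zero => omega
  | succ k ih =>
    rw [lst]
    rcases i with _ | i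
    · simp
    · rw [List.getD_cons_succ, ih i (by omega)]
      congr 1
      omega

/-- the check given by lists of earlier conflicting positions -/
def chkK (K : List (List ℕ)) (a : Fin 3) (l : List (Fin 3)) : Bool :=
  (K.getD l.length []).all (fun j => !(decide (l.getD (l.length - 1 - j) 0 = a)))

theorem allGood_lst (K : List (List ℕ)) (f : ℕ → Fin 3) (n : ℕ)
    (hK : ∀ k < n, ∀ j ∈ K.getD k [], j < k) :
    AllGood (chkK K) (lst f n) ↔ ∀ k < n, ∀ j ∈ K.getD k [], f j ≠ f k := by
  induction n with
  | zero => simp [lst, AllGood]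
  | succ n ih =>
    rw [lst, AllGood, ih (fun k hk => hK k (by omega))]
    have e : chkK K (f n) (lst f n) = true ↔ ∀ j ∈ K.getD n [], f j ≠ f n := by
      unfold chkK
      rw [length_lst, List.all_eq_true]
      refine forall₂_congr fun j hj => ?_
      have hjn := hK n (by omega) j hj
      rw [getD_lst f n _ (by omega), show n - 1 - (n - 1 - j) = j by omega]
      simp
    rw [e]
    constructor
    · rintro ⟨h1, h2⟩ k hk
      rcases Nat.lt_succ_iff_lt_or_eq.1 hk with h3 | rfl
      · exact h2 k h3
      · exact h1
    · intro h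
      exact ⟨h n (by omega), fun k hk => h k (by omega)⟩

end Pool.Agent.H257R2.Penrose
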