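import Mathlib

set_option autoImplicit false

namespace Pool.Agent.H257R2.Penrose

variable {P : Type}

/-- the equivalence relation generated by `r` and the pair `(p, q)` -/
def addPair (r : Setoid P) (p q : P) : Setoid P where
  r x y := r x y ∨ (r x p ∧ r q y) ∨ (r x q ∧ r p y)
  iseqv := by
    refine ⟨fun x => Or.inl (r.refl x), ?_, ?_⟩
    · rintro x y (h | ⟨h1, h2⟩ | ⟨h1, h2⟩)
      · exact Or.inl (r.symm h)
      · exact Or.inr (Or.inr ⟨r.symm h2, r.symm h1⟩)
      · exact Or.inr (Or.inl ⟨r.symm h2, r.symm h1⟩)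
    · rintro x y z (h | ⟨h1, h2⟩ | ⟨h1, h2⟩) (k | ⟨k1, k2⟩ | ⟨k1, k2⟩)
      · exact Or.inl (r.trans h k)
      · exact Or.inr (Or.inl ⟨r.trans h k1, k2⟩)
      · exact Or.inr (Or.inr ⟨r.trans h k1, k2⟩)
      · exact Or.inr (Or.inl ⟨h1, r.trans h2 k⟩)
      · exact Or.inr (Or.inl ⟨h1, k2⟩)
      · exact Or.inl (r.trans h1 k2)
      · exact Or.inr (Or.inr ⟨h1, r.trans h2 k⟩)
      · exact Or.inl (r.trans h1 k2)
      · exact Or.inr (Or.inr ⟨h1, k2⟩)

theorem addPair_iff (r : Setoid P) (p q x y : P) :
    addPair r p q x y ↔ r x y ∨ (r x p ∧ r q y) ∨ (r x q ∧ r p y) := Iff.rfl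

theorem addPair_self (r : Setoid P) {p q : P} (h : r p q) : addPair r p q = r := by
  ext x y
  rw [addPair_iff]
  constructor
  · rintro (h1 | ⟨h1, h2⟩ | ⟨h1, h2⟩)
    · exact h1
    · exact r.trans h1 (r.trans h h2)
    · exact r.trans h1 (r.trans (r.symm h) h2)
  · exact Or.inl

theorem card_addPair [Finite P] (r : Setoid P) {p q : P} (h : ¬ r p q) :
    Nat.card (Quotient (addPair r p q)) + 1 = Nat.card (Quotient r) := by
  classical
  have hfin : Finite (Quotient r) := inferInstance
  let g : {x : Quotient r // x ≠ Quotient.mk r q} → Quotient (addPair r p q) := fun x =>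
    Quotient.lift (s := r) (fun a => Quotient.mk (addPair r p q) a)
      (fun a b hab => Quotient.sound (Or.inl hab)) x.1
  have hg : Function.Bijective g := by
    constructor
    · rintro ⟨x, hx⟩ ⟨y, hy⟩ hxy
      induction x using Quotient.inductionOn with | _ a =>
      induction y using Quotient.inductionOn with | _ b =>
      have h1 : addPair r p q a b := Quotient.exact hxy
      rw [Subtype.mk.injEq]
      rcases h1 with h1 | ⟨h1, h2⟩ | ⟨h1, h2⟩
      · exact Quotient.sound h1
      · exact absurd (Quotient.sound (r.symm h2)) hy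
      · exact absurd (Quotient.sound h1) hx
    · intro y
      induction y using Quotient.inductionOn with | _ a =>
      by_cases ha : r a q
      · refine ⟨⟨Quotient.mk r p, fun hp => h (Quotient.exact hp)⟩, ?_⟩
        exact Quotient.sound (Or.inr (Or.inl ⟨r.refl p, r.symm ha⟩))
      · exact ⟨⟨Quotient.mk r a, fun hp => ha (Quotient.exact hp)⟩, rfl⟩
  rw [← Nat.card_congr (Equiv.ofBijective g hg)]
  have : Fintype (Quotient r) := Fintype.ofFinite _
  rw [Nat.card_eq_fintype_card, Nat.card_eq_fintype_card, Fintype.card_subtype_compl,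
    Fintype.card_subtype_eq]
  have : 0 < Fintype.card (Quotient r) := Fintype.card_pos_iff.2 ⟨Quotient.mk r q⟩
  omega

/-- digit `i` (in base 128) of a coded matching -/
def dig (l i : ℕ) : ℕ := (l >>> (7 * i)) % 128

/-- replace digit `i` by `a` -/
def st (l i a : ℕ) : ℕ := l ^^^ ((dig l i ^^^ a) <<< (7 * i))

theorem testBit_dig (l i k : ℕ) : (dig l i).testBit k = (decide (k < 7) && l.testBit (7 * i + k)) := by
  unfold dig
  rw [show (128 : ℕ) = 2 ^ 7 by norm_num, Nat.testBit_mod_two_pow, Nat.testBit_shiftRight]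

theorem dig_st (l i a j : ℕ) (ha : a < 128) : dig (st l i a) j = if i = j then a else dig l j := by
  have ha' : ∀ k, ¬ k < 7 → a.testBit k = false := by
    intro k hk
    apply Nat.testBit_lt_two_pow
    calc a < 2 ^ 7 := by omega
      _ ≤ 2 ^ k := Nat.pow_le_pow_right (by norm_num) (by omega)
  apply Nat.eq_of_testBit_eq
  intro k
  rw [testBit_dig]
  unfold st
  rw [Nat.testBit_xor, Nat.testBit_shiftLeft, Nat.testBit_xor, testBit_dig]
  by_cases hk : k < 7
  · by_cases hij : i = j
    · subst hij
      have h1 : 7 * i + k ≥ 7 * i := by omega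
      have h2 : 7 * i + k - 7 * i = k := by omega
      rw [if_pos rfl, h2]
      simp [hk, h1]
    · rw [if_neg hij, testBit_dig]
      by_cases hlt : i < j
      · have h1 : 7 * j + k ≥ 7 * i := by omega
        have h2 : ¬ (7 * j + k - 7 * i < 7) := by omega
        rw [ha' _ h2]
        simp [hk, h2]
      · have h1 : ¬ (7 * j + k ≥ 7 * i) := by omega
        simp [hk, h1]
  · by_cases hij : i = j
    · rw [if_pos hij, ha' k hk]
      simp [hk]
    · rw [if_neg hij, testBit_dig]
      simp [hk]

/-- join the strands ending at the points with codes `p` and `q`; the sign is `-1` if two different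
strands are joined, and `1` if a strand is closed up -/
def glueOne (p q : ℕ) (l : ℕ) : ℤ × ℕ :=
  if dig l p = q then (1, st (st l p 127) q 127)
  else (-1, st (st (st (st l (dig l p) (dig l q)) (dig l q) (dig l p)) p 127) q 127)

/-- the coded matching `l` describes the relation `r` on the set `U` of free points -/
structure Inv (enc : P → ℕ) (r : Setoid P) (l : ℕ) (U : Set P) : Prop where
  iff : ∀ x ∈ U, ∀ y ∈ U, (r x y ↔ (x = y ∨ dig l (enc x) = enc y))
  mate : ∀ x ∈ U, ∃ y ∈ U, y ≠ x ∧ dig l (enc x) = enc y ∧ dig l (enc y) = enc x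

theorem glue_inv [Finite P] {enc : P → ℕ} (henc : Function.Injective enc) {r : Setoid P}
    {l : ℕ} {U : Set P} (hlen : ∀ x, enc x < 128) (h : Inv enc r l U) {p q : P}
    (hp : p ∈ U) (hq : q ∈ U) (hpq : p ≠ q) :
    Inv enc (addPair r p q) (glueOne (enc p) (enc q) l).2 (U \ {p, q}) ∧
      (-1 : ℤ) ^ Nat.card (Quotient (addPair r p q)) =
        (-1) ^ Nat.card (Quotient r) * (glueOne (enc p) (enc q) l).1 := by
  have hne : ∀ {x y : P}, x ≠ y → enc x ≠ enc y := fun hxy he => hxy (henc he)
  unfold glueOne
  obtain ⟨mp, hmpU, hmpp, hlp, hlmp⟩ := h.mate p hp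
  obtain ⟨mq, hmqU, hmqq, hlq, hlmq⟩ := h.mate q hq
  by_cases hc : dig l (enc p) = enc q
  · rw [if_pos hc]
    have hmq : mp = q := henc (hlp.symm.trans hc)
    subst hmq
    have hrpq : r p mp := (h.iff p hp mp hq).2 (Or.inr hc)
    rw [addPair_self r hrpq]
    have hget : ∀ x, x ≠ p → x ≠ mp →
        dig (st (st l (enc p) 127) (enc mp) 127) (enc x) = dig l (enc x) := by
      intro x hx1 hx2
      rw [dig_st _ _ _ _ (by norm_num), if_neg (hne (Ne.symm hx2)),
        dig_st _ _ _ _ (by norm_num), if_neg (hne (Ne.symm hx1))]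
    refine ⟨⟨?_, ?_⟩, by simp⟩
    · rintro x ⟨hx, hx'⟩ y ⟨hy, -⟩
      simp only [Set.mem_insert_iff, Set.mem_singleton_iff, not_or] at hx'
      rw [hget x hx'.1 hx'.2]
      exact h.iff x hx y hy
    · rintro x ⟨hx, hx'⟩
      simp only [Set.mem_insert_iff, Set.mem_singleton_iff, not_or] at hx'
      obtain ⟨y, hyU, hyx, h1, h2⟩ := h.mate x hx
      have hyp : y ≠ p := by
        rintro rfl
        apply hx'.2
        apply henc
        rw [← h2, hc]
      have hyq : y ≠ mp := by
        rintro rfl
        apply hx'.1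
        apply henc
        rw [← h2, hlmp]
      refine ⟨y, ⟨hyU, by simp [hyp, hyq]⟩, hyx, ?_, ?_⟩
      · rw [hget x hx'.1 hx'.2]; exact h1
      · rw [hget y hyp hyq]; exact h2
  · rw [if_neg hc]
    have hmpq : mp ≠ q := by
      rintro rfl
      exact hc hlp
    have hmqp : mq ≠ p := by
      rintro rfl
      exact hc hlmq
    have hmm : mp ≠ mq := by
      rintro rfl
      exact hpq (henc (hlmp.symm.trans hlmq))
    have hnr : ¬ r p q := by
      rw [h.iff p hp q hq]
      push Not
      exact ⟨hpq, hc⟩
    have hrpmp : r p mp := (h.iff p hp mp hmpU).2 (Or.inr hlp)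
    have hrqmq : r q mq := (h.iff q hq mq hmqU).2 (Or.inr hlq)
    rw [hlp, hlq]
    have hget : ∀ x, x ≠ p → x ≠ q →
        dig (st (st (st (st l (enc mp) (enc mq)) (enc mq) (enc mp)) (enc p) 127) (enc q) 127)
          (enc x) = if enc mq = enc x then enc mp else if enc mp = enc x then enc mq
            else dig l (enc x) := by
      intro x hx1 hx2
      rw [dig_st _ _ _ _ (by norm_num), if_neg (hne (Ne.symm hx2)),
        dig_st _ _ _ _ (by norm_num), if_neg (hne (Ne.symm hx1)),
        dig_st _ _ _ _ (hlen _), dig_st _ _ _ _ (hlen _)]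
    -- values of `r` between free points
    have hval : ∀ x ∈ U, x ≠ p → x ≠ q → ∀ y ∈ U, y ≠ p → y ≠ q →
        (addPair r p q x y ↔ (x = y ∨ dig l (enc x) = enc y) ∨
          ((x = mp ∧ y = mq) ∨ (x = mq ∧ y = mp))) := by
      intro x hx hxp hxq y hy hyp hyq
      rw [addPair_iff, h.iff x hx y hy]
      have e1 : r x p ↔ x = mp := by
        rw [h.iff x hx p hp]
        constructor
        · rintro (h1 | h1)
          · exact absurd h1 hxp
          · obtain ⟨z, hz, -, h3, h4⟩ := h.mate x hx
            have : z = p := henc (h3.symm.trans h1)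
            subst this
            exact henc (h4.symm.trans hlp)
        · rintro rfl
          exact Or.inr hlmp
      have e2 : r x q ↔ x = mq := by
        rw [h.iff x hx q hq]
        constructor
        · rintro (h1 | h1)
          · exact absurd h1 hxq
          · obtain ⟨z, hz, -, h3, h4⟩ := h.mate x hx
            have : z = q := henc (h3.symm.trans h1)
            subst this
            exact henc (h4.symm.trans hlq)
        · rintro rfl
          exact Or.inr hlmq
      have e3 : r q y ↔ y = mq := by
        rw [h.iff q hq y hy]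
        constructor
        · rintro (h1 | h1)
          · exact absurd h1.symm hyq
          · exact henc (h1.symm.trans hlq)
        · rintro rfl
          exact Or.inr hlq
      have e4 : r p y ↔ y = mp := by
        rw [h.iff p hp y hy]
        constructor
        · rintro (h1 | h1)
          · exact absurd h1.symm hyp
          · exact henc (h1.symm.trans hlp)
        · rintro rfl
          exact Or.inr hlp
      rw [e1, e2, e3, e4]
    refine ⟨⟨?_, ?_⟩, ?_⟩
    · rintro x ⟨hx, hx'⟩ y ⟨hy, hy'⟩
      simp only [Set.mem_insert_iff, Set.mem_singleton_iff, not_or] at hx' hy'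
      rw [hval x hx hx'.1 hx'.2 y hy hy'.1 hy'.2, hget x hx'.1 hx'.2]
      by_cases h1 : x = mq
      · subst h1
        rw [if_pos rfl, hlmq]
        have e : enc q ≠ enc y := hne (Ne.symm hy'.2)
        constructor
        · rintro ((h2 | h2) | (⟨h2, h3⟩ | ⟨h2, h3⟩))
          · exact Or.inl h2
          · exact absurd h2 e
          · exact absurd h2 (Ne.symm hmm)
          · exact Or.inr (by rw [h3])
        · rintro (h2 | h2)
          · exact Or.inl (Or.inl h2)
          · exact Or.inr (Or.inr ⟨rfl, (henc h2).symm⟩)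
      · rw [if_neg (hne (Ne.symm h1))]
        by_cases h2 : x = mp
        · subst h2
          rw [if_pos rfl, hlmp]
          have e : enc p ≠ enc y := hne (Ne.symm hy'.1)
          constructor
          · rintro ((h2 | h2) | (⟨h2, h3⟩ | ⟨h2, h3⟩))
            · exact Or.inl h2
            · exact absurd h2 e
            · exact Or.inr (by rw [h3])
            · exact absurd h2 h1
          · rintro (h2 | h2)
            · exact Or.inl (Or.inl h2)
            · exact Or.inr (Or.inl ⟨rfl, (henc h2).symm⟩)
        · rw [if_neg (hne (Ne.symm h2))]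
          constructor
          · rintro (h3 | (⟨h3, -⟩ | ⟨h3, -⟩))
            · exact h3
            · exact absurd h3 h2
            · exact absurd h3 h1
          · exact Or.inl
    · rintro x ⟨hx, hx'⟩
      simp only [Set.mem_insert_iff, Set.mem_singleton_iff, not_or] at hx'
      by_cases h1 : x = mq
      · subst h1
        refine ⟨mp, ⟨hmpU, by simp [hmpp, hmpq]⟩, hmm, ?_, ?_⟩
        · rw [hget x hx'.1 hx'.2, if_pos rfl]
        · rw [hget mp hmpp hmpq, if_neg (hne (Ne.symm hmm)), if_pos rfl]
      · by_cases h2 : x = mp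
        · subst h2
          refine ⟨mq, ⟨hmqU, by simp [hmqp, hmqq]⟩, Ne.symm hmm, ?_, ?_⟩
          · rw [hget x hx'.1 hx'.2, if_neg (hne (Ne.symm hmm)), if_pos rfl]
          · rw [hget mq hmqp hmqq, if_pos rfl]
        · obtain ⟨y, hyU, hyx, h3, h4⟩ := h.mate x hx
          have hyp : y ≠ p := by
            rintro rfl
            exact h2 (henc (h4.symm.trans hlp))
          have hyq : y ≠ q := by
            rintro rfl
            exact h1 (henc (h4.symm.trans hlq))
          have hymq : y ≠ mq := by
            rintro rfl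
            exact hx'.2 (henc (h4.symm.trans hlmq))
          have hymp : y ≠ mp := by
            rintro rfl
            exact hx'.1 (henc (h4.symm.trans hlmp))
          refine ⟨y, ⟨hyU, by simp [hyp, hyq]⟩, hyx, ?_, ?_⟩
          · rw [hget x hx'.1 hx'.2, if_neg (hne (Ne.symm h1)), if_neg (hne (Ne.symm h2))]
            exact h3
          · rw [hget y hyp hyq, if_neg (hne (Ne.symm hymq)), if_neg (hne (Ne.symm hymp))]
            exact h4
    · rw [← card_addPair r hnr, pow_succ]
      ring

end Pool.Agent.H257R2.Penrose
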