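import Pool.Agent.H257R2.PenroseData

set_option autoImplicit false

namespace Pool.Agent.H257R2.Penrose

open Finset

/-! ### the map is plane, connected and cubic -/

theorem opp_facts : ∀ d : Fin 42, opp d ≠ d ∧ opp (opp d) = d := by decide +kernel

theorem rot_facts : ∀ d : Fin 42, rot d ≠ d ∧ rot (rot d) ≠ d ∧ rot (rot (rot d)) = d := by
  decide +kernel

def perms (b : Bool) : Equiv.Perm (Fin 42) := if b then opp else rot

theorem words_facts : ∀ d : Fin 42,
    (words.getD d.1 []).foldr (fun b x => perms b x) 0 = d := by decide +kernel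

theorem prod_word (w : List Bool) (x : Fin 42) :
    (w.map perms).prod x = w.foldr (fun b x => perms b x) x := by
  induction w with
  | nil => rfl
  | cons b w ih => rw [List.map_cons, List.prod_cons, Equiv.Perm.mul_apply, ih, List.foldr_cons]

theorem word_mem (w : List Bool) : (w.map perms).prod ∈ Subgroup.closure {rot, opp} := by
  apply Subgroup.list_prod_mem
  intro g hg
  rw [List.mem_map] at hg
  obtain ⟨b, -, rfl⟩ := hg
  apply Subgroup.subset_closure
  rcases b with _ | _
  · exact Or.inl rfl
  · exact Or.inr rfl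

theorem reach (d : Fin 42) : ∃ g ∈ Subgroup.closure {rot, opp}, g 0 = d :=
  ⟨_, word_mem (words.getD d.1 []), by rw [prod_word]; exact words_facts d⟩

theorem connected (d d' : Fin 42) : ∃ g ∈ Subgroup.closure {rot, opp}, g d = d' := by
  obtain ⟨g, hg, h⟩ := reach d
  obtain ⟨g', hg', h'⟩ := reach d'
  refine ⟨g' * g⁻¹, mul_mem hg' (inv_mem hg), ?_⟩
  rw [Equiv.Perm.mul_apply, ← h', Equiv.Perm.inv_eq_iff_eq.2 h.symm]

theorem orbits_rot : numOrbits rot = 14 := by
  refine numOrbits_eq rot vidx (by decide +kernel) (by decide +kernel) ?_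
  have h : ∀ x y : Fin 42, vidx x = vidx y → ∃ n : Fin 6, (rotF^[n.1]) x = y := by decide +kernel
  exact h

theorem orbits_opp : numOrbits opp = 21 := by
  refine numOrbits_eq opp eidx (by decide +kernel) (by decide +kernel) ?_
  have h : ∀ x y : Fin 42, eidx x = eidx y → ∃ n : Fin 6, (oppF^[n.1]) x = y := by decide +kernel
  exact h

theorem orbits_face : numOrbits (rot * opp) = 9 := by
  refine numOrbits_eq (rot * opp) fidx (by decide +kernel) (by decide +kernel) ?_
  have h : ∀ x y : Fin 42, fidx x = fidx y →
      ∃ n : Fin 6, ((fun d => rotF (oppF d))^[n.1]) x = y := by decide +kernel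
  exact h

theorem isPlaneCubic : IsPlaneCubic rot opp := by
  refine ⟨opp_facts, rot_facts, ⟨0⟩, connected, ?_⟩
  rw [orbits_rot, orbits_opp, orbits_face]
  norm_num

/-! ### the colourings -/

theorem rep_eidx : ∀ d : Fin 42, d = rep (eidx d) ∨ d = opp (rep (eidx d)) := by decide +kernel

theorem eidx_rep : ∀ i : Fin 21, eidx (rep i) = i := by decide +kernel

theorem eidx_opp : ∀ d : Fin 42, eidx (opp d) = eidx d := by decide +kernel

theorem Kl_lt : ∀ k < 21, ∀ j ∈ Kl.getD k [], j < k := by decide +kernel

theorem Kl_mem : ∀ d d' : Fin 42, vidx d = vidx d' → d' ≠ d → d' ≠ opp d →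
    (eidx d).1 < (eidx d').1 → (eidx d).1 ∈ Kl.getD (eidx d').1 [] := by decide +kernel

theorem eidx_ne : ∀ d d' : Fin 42, d' ≠ d → d' ≠ opp d → eidx d ≠ eidx d' := by decide +kernel

theorem Kl_dart : ∀ k < 21, ∀ j ∈ Kl.getD k [],
    ∃ d d' : Fin 42, (d' = rot d ∨ d' = rot (rot d)) ∧ (eidx d).1 = j ∧ (eidx d').1 = k := by
  decide +kernel

theorem sols_card : (sols (chkK Kl) 21).length = 54 := by decide +kernel

theorem sols_nodup : (sols (chkK Kl) 21).Nodup := by decide +kernel

/-- the colour of edge number `i` -/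
def fOf (c : Fin 42 → Fin 3) (i : ℕ) : Fin 3 := if h : i < 21 then c (rep ⟨i, h⟩) else 0

theorem fOf_eidx {c : Fin 42 → Fin 3} (hc : ∀ d, c (opp d) = c d) (d : Fin 42) :
    fOf c (eidx d).1 = c d := by
  unfold fOf
  rw [dif_pos (eidx d).2]
  rcases rep_eidx d with h | h
  · rw [Fin.eta, ← h]
  · rw [Fin.eta]
    conv_rhs => rw [h]
    rw [hc]

theorem isColouring_iff {c : Fin 42 → Fin 3} (hc : ∀ d, c (opp d) = c d) :
    IsColouring rot opp c ↔ AllGood (chkK Kl) (lst (fOf c) 21) := by
  rw [allGood_lst Kl (fOf c) 21 Kl_lt]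
  constructor
  · rintro ⟨-, h⟩ k hk j hj
    obtain ⟨d, d', hd, rfl, rfl⟩ := Kl_dart k hk j hj
    rw [fOf_eidx hc, fOf_eidx hc]
    have hlt := Kl_lt _ hk _ hj
    apply h d d'
    · rcases hd with rfl | rfl
      · exact ⟨1, by simp⟩
      · exact ⟨2, by simp [pow_two]⟩
    · rintro rfl
      exact lt_irrefl _ hlt
    · rintro rfl
      rw [eidx_opp] at hlt
      exact lt_irrefl _ hlt
  · intro h
    refine ⟨hc, fun d d' hdd' h1 h2 => ?_⟩
    have h3 := sameCycle_label rot vidx (by decide +kernel) hdd'
    have h4 := eidx_ne d d' h1 h2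
    rw [← fOf_eidx hc d, ← fOf_eidx hc d']
    rcases lt_trichotomy (eidx d).1 (eidx d').1 with h5 | h5 | h5
    · exact h _ (eidx d').2 _ (Kl_mem d d' h3 h1 h2 h5)
    · exact absurd (Fin.ext h5) h4
    · have h6 : d ≠ opp d' := by
        intro h7
        exact h2 (by rw [h7, (opp_facts d').2])
      exact (h _ (eidx d).2 _ (Kl_mem d' d h3.symm (Ne.symm h1) h6 h5)).symm

theorem numColourings_eq : numColourings rot opp = 54 := by
  have e : {c : Fin 42 → Fin 3 // IsColouring rot opp c} ≃
      {l : List (Fin 3) // l ∈ (sols (chkK Kl) 21).toFinset} := by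
    refine Equiv.ofBijective (fun c => ⟨lst (fOf c.1) 21, ?_⟩) ⟨?_, ?_⟩
    · rw [List.mem_toFinset, mem_sols]
      exact ⟨length_lst _ _, (isColouring_iff c.2.1).1 c.2⟩
    · rintro ⟨c, hc⟩ ⟨c', hc'⟩ h
      rw [Subtype.mk.injEq] at h ⊢
      funext d
      have h1 := getD_lst (fOf c) 21 (20 - (eidx d).1) (by omega)
      have h2 := getD_lst (fOf c') 21 (20 - (eidx d).1) (by omega)
      have h3 : 21 - 1 - (20 - (eidx d).1) = (eidx d).1 := by omega
      rw [h3, fOf_eidx hc.1] at h1
      rw [h3, fOf_eidx hc'.1] at h2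
      rw [← h1, ← h2, h]
    · rintro ⟨l, hl⟩
      have hl' := hl
      rw [List.mem_toFinset, mem_sols] at hl'
      obtain ⟨h1, h2⟩ := hl'
      let c : Fin 42 → Fin 3 := fun d => l.getD (20 - (eidx d).1) 0
      have hc : ∀ d, c (opp d) = c d := fun d => by
        change l.getD (20 - (eidx (opp d)).1) 0 = l.getD (20 - (eidx d).1) 0
        rw [eidx_opp]
      have h3 : lst (fOf c) 21 = l := by
        apply List.ext_getElem
        · rw [length_lst, h1]
        · intro i hi hi'
          rw [length_lst] at hi
          have h4 := getD_lst (fOf c) 21 i hi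
          rw [List.getD_eq_getElem _ _ (by rw [length_lst]; exact hi)] at h4
          rw [h4]
          have h5 : 21 - 1 - i < 21 := by omega
          have h6 : fOf c (21 - 1 - i) = c (rep ⟨21 - 1 - i, h5⟩) := by
            unfold fOf
            rw [dif_pos h5]
          rw [h6]
          change l.getD (20 - (eidx (rep ⟨21 - 1 - i, h5⟩)).1) 0 = l[i]
          rw [eidx_rep, List.getD_eq_getElem _ _ (by rw [h1]; omega)]
          congr 1
          change 20 - (21 - 1 - i) = i
          omega
      refine ⟨⟨c, (isColouring_iff hc).2 (by rw [h3]; exact h2)⟩, ?_⟩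
      rw [Subtype.mk.injEq]
      exact h3
  unfold numColourings
  rw [Nat.card_congr e, Nat.card_eq_fintype_card, Fintype.card_coe,
    List.toFinset_card_of_nodup sols_nodup, sols_card]

/-! ### the Penrose polynomial at `-1` -/

abbrev Pt : Type := Fin 42 × Bool

def enc (x : Pt) : ℕ := 2 * x.1.1 + x.2.toNat

theorem enc_inj : Function.Injective enc := by
  rintro ⟨a, b⟩ ⟨c, d⟩ h
  unfold enc at h
  have hb := b.toNat_lt
  have hd := d.toNat_lt
  dsimp only at h
  have h1 : b.toNat = d.toNat := by omega
  have h2 : a = c := Fin.ext (by omega)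
  have h3 : b = d := by
    rcases b with _ | _ <;> rcases d with _ | _ <;> simp_all
  rw [h2, h3]

theorem enc_lt (x : Pt) : enc x < 128 := by
  unfold enc
  have hb := x.2.toNat_lt
  omega

/-- the gate at edge number `i` -/
def gate (i : Fin 21) : Pt × Pt × Pt × Pt :=
  ((rot.symm (rep i), true), (opp (rep i), false), (rot.symm (opp (rep i)), true), (rep i, false))

def gates : List (Pt × Pt × Pt × Pt) := List.ofFn gate

theorem gates_code : gates.map (code enc) = gatesN := by decide +kernel

theorem gates_nodup : (gates.flatMap gatePts).Nodup := by decide +kernel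

theorem gates_all : ∀ x : Pt, x ∈ gates.flatMap gatePts := by decide +kernel

def r0 : Setoid Pt := Setoid.ker (fun x : Pt => x.1)

theorem r0_iff (x y : Pt) : r0 x y ↔ x.1 = y.1 := Iff.rfl

theorem init_iff : ∀ x y : Pt, (x.1 = y.1 ↔ (x = y ∨ dig initN (enc x) = enc y)) := by
  decide +kernel

theorem init_mate : ∀ x : Pt, (x.1, !x.2) ≠ x ∧ dig initN (enc x) = enc (x.1, !x.2) ∧
    dig initN (enc (x.1, !x.2)) = enc x := by
  decide +kernel

theorem init_inv : Inv enc r0 initN {x | x ∈ gates.flatMap gatePts} := by
  refine ⟨fun x _ y _ => ?_, fun x _ => ⟨(x.1, !x.2), gates_all _, init_mate x⟩⟩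
  rw [r0_iff]
  exact init_iff x y

theorem card_r0 : Nat.card (Quotient r0) = 42 := by
  have e : Quotient r0 ≃ Fin 42 :=
    Setoid.quotientKerEquivOfSurjective (fun x : Pt => x.1) (fun d => ⟨(d, true), rfl⟩)
  rw [Nat.card_congr e, Nat.card_fin]

/-- the state given by a list of bits -/
def sOf (t : List Bool) (d : Fin 42) : Bool := t.getD (eidx d).1 false

theorem gates_get (i : Fin 21) : gates[i.1]? = some (gate i) := by
  unfold gates
  rw [List.getElem?_ofFn, dif_pos i.2]

theorem sOf_get (t : List Bool) (ht : t.length = 21) (d : Fin 42) :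
    t[(eidx d).1]? = some (sOf t d) := by
  unfold sOf
  have h : (eidx d).1 < t.length := by rw [ht]; exact (eidx d).2
  rw [List.getD_eq_getElem _ _ h, List.getElem?_eq_getElem h]

theorem sOf_opp (t : List Bool) (d : Fin 42) : sOf t (opp d) = sOf t d := by
  unfold sOf
  rw [eidx_opp]

theorem numCurves_eq (t : List Bool) (ht : t.length = 21) :
    numCurves rot opp (sOf t) = Nat.card (Quotient (glueL r0 gates t)) := by
  unfold numCurves
  apply card_quot_eq
  · intro x y hxy
    have key : ∀ d : Fin 42,
        (sOf t d = true → glueL r0 gates t (gate (eidx d)).1 (gate (eidx d)).2.2.1 ∧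
          glueL r0 gates t (gate (eidx d)).2.1 (gate (eidx d)).2.2.2) ∧
        (sOf t d = false → glueL r0 gates t (gate (eidx d)).1 (gate (eidx d)).2.1 ∧
          glueL r0 gates t (gate (eidx d)).2.2.1 (gate (eidx d)).2.2.2) := by
      intro d
      have h := mem_glueL gates t r0 (eidx d).1 (gate (eidx d)) (gates_get _)
      rw [sOf_get t ht d] at h
      exact ⟨fun h1 => h.1 (by rw [h1]), fun h1 => h.2 (by rw [h1])⟩
    cases hxy with
    | along d => exact le_glueL gates t r0 ((r0_iff _ _).2 rfl)
    | white d h =>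
      obtain ⟨h1, h2⟩ := (key d).2 h
      rcases rep_eidx d with hd | hd
      · unfold gate at h1
        dsimp only at h1
        rw [← hd] at h1
        exact h1
      · unfold gate at h2
        dsimp only at h2
        rw [← hd] at h2
        have h3 : opp d = rep (eidx d) := by
          conv_lhs => rw [hd]
          exact (opp_facts _).2
        rw [h3]
        exact h2
    | cross₁ d h =>
      obtain ⟨h1, h2⟩ := (key d).1 h
      unfold gate at h2
      dsimp only at h2
      rcases rep_eidx d with hd | hd
      · rw [← hd] at h2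
        exact (glueL r0 gates t).symm h2
      · rw [← hd] at h2
        have h3 : opp d = rep (eidx d) := by
          conv_lhs => rw [hd]
          exact (opp_facts _).2
        rw [h3]
        exact h2
    | cross₂ d h =>
      obtain ⟨h1, h2⟩ := (key d).1 h
      unfold gate at h1
      dsimp only at h1
      rcases rep_eidx d with hd | hd
      · rw [← hd] at h1
        exact h1
      · rw [← hd] at h1
        have h3 : opp d = rep (eidx d) := by
          conv_lhs => rw [hd]
          exact (opp_facts _).2
        rw [h3]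
        exact (glueL r0 gates t).symm h1
  · have hT : ∀ x y, glueL r0 gates t x y →
        (Relation.EqvGen.setoid (CurveStep rot opp (sOf t))) x y := by
      apply glueL_le
      · rintro ⟨d, a⟩ ⟨d', b⟩ h
        rw [r0_iff] at h
        dsimp only at h
        subst h
        rcases a with _ | _ <;> rcases b with _ | _
        · exact Relation.EqvGen.refl _
        · exact Relation.EqvGen.rel _ _ (CurveStep.along d)
        · exact Relation.EqvGen.symm _ _ (Relation.EqvGen.rel _ _ (CurveStep.along d))
        · exact Relation.EqvGen.refl _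
      · intro i g hg
        have hi : i < 21 := by
          by_contra hcon
          unfold gates at hg
          rw [List.getElem?_ofFn, dif_neg hcon] at hg
          exact absurd hg (by simp)
        rw [gates_get ⟨i, hi⟩, Option.some.injEq] at hg
        subst hg
        have h1 := sOf_get t ht (rep ⟨i, hi⟩)
        rw [eidx_rep] at h1
        dsimp only at h1
        constructor
        · intro h2
          rw [h1, Option.some.injEq] at h2
          refine ⟨?_, ?_⟩
          · exact Relation.EqvGen.rel _ _ (CurveStep.cross₂ (rep ⟨i, hi⟩) h2)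
          · exact Relation.EqvGen.symm _ _
              (Relation.EqvGen.rel _ _ (CurveStep.cross₁ (rep ⟨i, hi⟩) h2))
        · intro h2
          rw [h1, Option.some.injEq] at h2
          refine ⟨?_, ?_⟩
          · exact Relation.EqvGen.rel _ _ (CurveStep.white (rep ⟨i, hi⟩) h2)
          · have h3 := CurveStep.white (rot := rot) (opp := opp) (s := sOf t) (opp (rep ⟨i, hi⟩))
              (by rw [sOf_opp]; exact h2)
            rw [(opp_facts _).2] at h3
            exact Relation.EqvGen.rel _ _ h3
    intro x y h
    exact hT x y h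

theorem fiber_card : ∀ i : Fin 21, (univ.filter (fun d : Fin 42 => eidx d = i)).card = 2 := by
  decide +kernel

/-- the state given by edge bits -/
def ofB (b : Fin 21 → Bool) : Fin 42 → Bool := fun d => b (eidx d)

theorem sum_states_gen {D E : Type} [Fintype D] [DecidableEq D] [Fintype E] [DecidableEq E]
    (ei : D → E) (rp : E → D) (op : D → D)
    (h1 : ∀ d, d = rp (ei d) ∨ d = op (rp (ei d))) (h2 : ∀ i, ei (rp i) = i)
    (h3 : ∀ d, ei (op d) = ei d) (F : (D → Bool) → ℤ)
    (P : (D → Bool) → Prop) [DecidablePred P] (hP : ∀ s, P s ↔ ∀ d, s (op d) = s d) :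
    ∑ s ∈ univ.filter P, F s = ∑ b : E → Bool, F (fun d => b (ei d)) := by
  have e1 : univ.filter P = univ.image (fun (b : E → Bool) (d : D) => b (ei d)) := by
    ext s
    rw [mem_filter, mem_image]
    constructor
    · rintro ⟨-, hs⟩
      rw [hP] at hs
      refine ⟨fun i => s (rp i), mem_univ _, ?_⟩
      funext d
      change s (rp (ei d)) = s d
      rcases h1 d with h | h
      · rw [← h]
      · conv_rhs => rw [h]
        rw [hs]
    · rintro ⟨b, -, rfl⟩
      refine ⟨mem_univ _, ?_⟩
      rw [hP]
      intro d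
      rw [h3]
  rw [e1, Finset.sum_image]
  intro b _ b' _ h
  funext i
  have h4 := congrFun h (rp i)
  change b (ei (rp i)) = b' (ei (rp i)) at h4
  rw [h2] at h4
  exact h4

theorem penrose_gen {D E : Type} [Fintype D] [DecidableEq D] [Fintype E] [DecidableEq E]
    (rt op : Equiv.Perm D) (ei : D → E) (rp : E → D)
    (h1 : ∀ d, d = rp (ei d) ∨ d = op (rp (ei d))) (h2 : ∀ i, ei (rp i) = i)
    (h3 : ∀ d, ei (op d) = ei d) :
    (penrose rt op).eval (-1) =
      ∑ b : E → Bool, (-1) ^ ((univ.filter (fun d => b (ei d) = true)).card / 2) *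
        (-1) ^ (numCurves rt op (fun d => b (ei d))) := by
  unfold penrose
  rw [Polynomial.eval_finsetSum]
  have h4 : ∀ s : D → Bool,
      Polynomial.eval (-1 : ℤ) ((-1) ^ ((univ.filter (fun d => s d = true)).card / 2) *
        Polynomial.X ^ (numCurves rt op s)) =
      (fun s => (-1) ^ ((univ.filter (fun d => s d = true)).card / 2) *
        (-1) ^ (numCurves rt op s)) s := by
    intro s
    simp
  rw [Finset.sum_congr rfl (fun s _ => h4 s)]
  exact sum_states_gen ei rp op h1 h2 h3 _ _ (fun s => Iff.rfl)

theorem cr_eq (b : Fin 21 → Bool) :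
    (univ.filter (fun d : Fin 42 => b (eidx d) = true)).card / 2 = (List.ofFn b).count true := by
  have h : (univ.filter (fun d : Fin 42 => b (eidx d) = true)).card =
      2 * (List.ofFn b).count true := by
    rw [count_ofFn, Finset.card_filter, ← Finset.sum_fiberwise (s := univ) (g := eidx),
      Finset.mul_sum]
    apply Finset.sum_congr rfl
    intro i _
    rw [Finset.sum_congr rfl (g := fun _ => if b i = true then 1 else 0)]
    · rw [Finset.sum_const, fiber_card, smul_eq_mul]
    · intro d hd
      rw [mem_filter] at hd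
      rw [hd.2]
  rw [h]
  omega

end Pool.Agent.H257R2.Penrose
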